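import Mathlib

/-! A Vorob'ev-regular scenario with a contextual partial polymatroid: facets `{0,1,2,3}` and
`{0,1,4}`, the Vámos-type polymatroid on the first and a common information on the second. -/

open Finset

namespace Pool.Agent.Results.MP_e7d137_lc.RegularContextual

variable {n : ℕ}

def IsScenario (M : Set (Finset (Fin n))) : Prop := ∅ ∈ M ∧ ∀ S T, S ⊆ T → T ∈ M → S ∈ M

def IsFacet (M : Set (Finset (Fin n))) (F : Finset (Fin n)) : Prop :=
  F ∈ M ∧ ∀ T ∈ M, F ⊆ T → T = F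

/-- The facets can be listed with the running intersection property. -/
def Regular (M : Set (Finset (Fin n))) : Prop :=
  ∃ (k : ℕ) (F : Fin k → Finset (Fin n)), Function.Injective F ∧
    (∀ S, IsFacet M S ↔ ∃ j, F j = S) ∧
    ∀ j : Fin k, 0 < j.val → ∃ i < j, F j ∩ (univ.filter (· < j)).biUnion F ⊆ F i

def IsPolymatroid (f : Finset (Fin n) → ℝ) : Prop :=
  f ∅ = 0 ∧ (∀ S, 0 ≤ f S) ∧ (∀ S T, S ⊆ T → f S ≤ f T) ∧
    ∀ S T, f (S ∪ T) + f (S ∩ T) ≤ f S + f T

/-- Polymatroid axioms on the members of `M` only. -/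
def IsPolyOn (M : Set (Finset (Fin n))) (g : Finset (Fin n) → ℝ) : Prop :=
  g ∅ = 0 ∧ (∀ S ∈ M, 0 ≤ g S) ∧ (∀ S ∈ M, ∀ T ∈ M, S ⊆ T → g S ≤ g T) ∧
    ∀ S ∈ M, ∀ T ∈ M, S ∪ T ∈ M → g (S ∪ T) + g (S ∩ T) ≤ g S + g T

def NonContextual (M : Set (Finset (Fin n))) (g : Finset (Fin n) → ℝ) : Prop :=
  ∃ f, IsPolymatroid f ∧ ∀ S ∈ M, f S = g S

def mem (S : Finset (Fin 5)) : Prop := S ⊆ {0, 1, 2, 3} ∨ S ⊆ {0, 1, 4}

instance : DecidablePred mem := fun S => by unfold mem; infer_instance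

def G (S : Finset (Fin 5)) : ℕ :=
  if S = {4} then 1 else if S.erase 4 = {2, 3} then 4 else
    match (S.erase 4).card with
    | 0 => 0
    | 1 => 2
    | 2 => 3
    | _ => 4

theorem result : ∃ (n : ℕ) (M : Set (Finset (Fin n))) (g : Finset (Fin n) → ℝ),
    IsScenario M ∧ (∀ i, {i} ∈ M) ∧ Regular M ∧ IsPolyOn M g ∧ ¬ NonContextual M g := by
  refine ⟨5, {S | mem S}, fun S => G S, ⟨?_, ?_⟩, ?_, ⟨2, ![{0, 1, 2, 3}, {0, 1, 4}], ?_, ?_, ?_⟩,
    ⟨?_, ?_, ?_, ?_⟩, ?_⟩
  · show mem ∅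
    decide
  · have : ∀ S T : Finset (Fin 5), S ⊆ T → mem T → mem S := by decide +kernel
    exact this
  · have : ∀ i : Fin 5, mem {i} := by decide
    exact this
  · decide
  · have : ∀ S : Finset (Fin 5), (mem S ∧ ∀ T, mem T → S ⊆ T → T = S) ↔
        ∃ j, (![{0, 1, 2, 3}, {0, 1, 4}] : Fin 2 → Finset (Fin 5)) j = S := by decide +kernel
    exact this
  · decide
  · simp [G]
  · exact fun S _ => Nat.cast_nonneg _
  · have : ∀ S T : Finset (Fin 5), mem T → S ⊆ T → G S ≤ G T := by decide +kernel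
    exact fun S _ T hT h => Nat.cast_le.mpr (this S T hT h)
  · have : ∀ S T : Finset (Fin 5), mem (S ∪ T) → G (S ∪ T) + G (S ∩ T) ≤ G S + G T := by
      decide +kernel
    intro S _ T _ h
    beta_reduce
    exact_mod_cast this S T h
  · rintro ⟨f, ⟨-, -, hm, hs⟩, he⟩
    have v : ∀ (S : Finset (Fin 5)) (k : ℕ), mem S → G S = k → f S = k := fun S k h1 h2 => by
      rw [he S h1, ← h2]
    have s : ∀ S T U V : Finset (Fin 5), S ∪ T = U → S ∩ T = V → f U + f V ≤ f S + f T :=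
      fun S T U V h1 h2 => h1 ▸ h2 ▸ hs S T
    have a1 := s {0, 4} {0, 2} {0, 2, 4} {0} (by decide) (by decide)
    have a2 := s {1, 4} {1, 2} {1, 2, 4} {1} (by decide) (by decide)
    have a3 := s {0, 2, 4} {1, 2, 4} {0, 1, 2, 4} {2, 4} (by decide) (by decide)
    have a4 := hm {0, 1, 2} {0, 1, 2, 4} (by decide)
    have b1 := s {0, 4} {0, 3} {0, 3, 4} {0} (by decide) (by decide)
    have b2 := s {1, 4} {1, 3} {1, 3, 4} {1} (by decide) (by decide)
    have b3 := s {0, 3, 4} {1, 3, 4} {0, 1, 3, 4} {3, 4} (by decide) (by decide)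
    have b4 := hm {0, 1, 3} {0, 1, 3, 4} (by decide)
    have c1 := s {2, 4} {3, 4} {2, 3, 4} {4} (by decide) (by decide)
    have c2 := hm {2, 3} {2, 3, 4} (by decide)
    have := v {0} 2 (by decide) (by decide)
    have := v {1} 2 (by decide) (by decide)
    have := v {4} 1 (by decide) (by decide)
    have := v {0, 4} 2 (by decide) (by decide)
    have := v {1, 4} 2 (by decide) (by decide)
    have := v {0, 2} 3 (by decide) (by decide)
    have := v {1, 2} 3 (by decide) (by decide)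
    have := v {0, 3} 3 (by decide) (by decide)
    have := v {1, 3} 3 (by decide) (by decide)
    have := v {2, 3} 4 (by decide) (by decide)
    have := v {0, 1, 2} 4 (by decide) (by decide)
    have := v {0, 1, 3} 4 (by decide) (by decide)
    push_cast at *
    linarith

end Pool.Agent.Results.MP_e7d137_lc.RegularContextual
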